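import Pool.Agent.W2helper26.PB.Stm

/-!
# Project PB, piece HIT2: there are hits of infinitely many lengths
-/

set_option autoImplicit false

namespace Pool.Agent.W2helper93.PB

open Pool.Agent.NPC Pool.Agent.H620R2.Gauge Filter MeasureTheory ProbabilityTheory
open Pool.Agent.W2helper26.PB
open scoped ENNReal

/-- the probability of a cylinder -/
theorem cyl (F : Finset (List Bool)) : ranO {B | ∀ y ∈ F, B y = true} = (2⁻¹ : ℝ≥0∞) ^ F.card := by
  have h1 : {B : Oracle | ∀ y ∈ F, B y = true} =
      Set.pi (F : Set (List Bool)) (fun _ => ({true} : Set Bool)) := by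
    ext B
    simp [Set.mem_pi]
  rw [h1]
  have h2 : ranO (Set.pi (F : Set (List Bool)) (fun _ => ({true} : Set Bool))) =
      ∏ y ∈ F, coinM ({true} : Set Bool) :=
    Measure.infinitePi_pi (fun _ : List Bool => coinM) (s := F)
      (t := fun _ => ({true} : Set Bool)) (fun i _ => MeasurableSet.singleton _)
  rw [h2, Finset.prod_congr rfl (fun y _ => coinM_singleton true), Finset.prod_const]

theorem cyl_meas (F : Finset (List Bool)) : MeasurableSet {B : Oracle | ∀ y ∈ F, B y = true} := by
  have h1 : {B : Oracle | ∀ y ∈ F, B y = true} =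
      Set.pi (F : Set (List Bool)) (fun _ => ({true} : Set Bool)) := by
    ext B
    simp [Set.mem_pi]
  rw [h1]
  exact MeasurableSet.pi F.countable_toSet fun i _ => MeasurableSet.singleton _

theorem pair_inj : ∀ (x x' w w' : List Bool), pairBits x w = pairBits x' w' → x = x' ∧ w = w' := by
  intro x
  induction x with
  | nil =>
    intro x' w w' h
    cases x' with
    | nil => simpa [pairBits] using h
    | cons b x' => simp [pairBits] at h
  | cons a x ih =>
    intro x' w w' h
    cases x' with
    | nil => simp [pairBits] at h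
    | cons b x' =>
      simp only [pairBits, List.flatMap_cons, List.cons_append, List.nil_append, List.cons.injEq,
        true_and] at h
      obtain ⟨h1, h2⟩ := h
      obtain ⟨h3, h4⟩ := ih x' w w' h2
      exact ⟨by rw [h1, h3], h4⟩

theorem hs_inj {w w' : List Bool} {r r' : ℕ} (h : hs w r = hs w' r') : w = w' ∧ r = r' := by
  simp only [hs, List.cons.injEq, true_and] at h
  obtain ⟨h1, h2⟩ := pair_inj _ _ _ _ h
  refine ⟨h1, ?_⟩
  have := congrArg List.length h2
  simpa using this

/-- the strings of the candidate `w` -/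
def Fw (w : List Bool) : Finset (List Bool) := (Finset.range (hb w.length)).image (hs w)

theorem card_Fw (w : List Bool) : (Fw w).card = hb w.length := by
  rw [Fw, Finset.card_image_of_injective _ fun r r' h => (hs_inj h).2, Finset.card_range]

theorem hit_iff (B : Oracle) (w : List Bool) : Hit B w ↔ ∀ y ∈ Fw w, B y = true := by
  simp [Hit, Fw]

theorem disj {w w' : List Bool} (h : w ≠ w') : Disjoint (Fw w) (Fw w') := by
  rw [Finset.disjoint_left]
  intro y h1 h2
  simp only [Fw, Finset.mem_image] at h1 h2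
  obtain ⟨r, -, rfl⟩ := h1
  obtain ⟨r', -, h3⟩ := h2
  exact h (hs_inj h3).1.symm

/-- the event that the candidate number `i` is a hit -/
def ev (i : ℕ) : Set Oracle := {B | Hit B (str i)}

theorem ev_eq (i : ℕ) : ev i = {B | ∀ y ∈ Fw (str i), B y = true} := by
  ext B
  exact hit_iff B _

theorem ev_meas (i : ℕ) : MeasurableSet (ev i) := by
  rw [ev_eq]
  exact cyl_meas _

theorem ran_ev (i : ℕ) : ranO (ev i) = (2⁻¹ : ℝ≥0∞) ^ hb (str i).length := by
  rw [ev_eq, cyl, card_Fw]

theorem indep : iIndepSet ev ranO := by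
  rw [iIndepSet_iff_meas_biInter ev_meas]
  intro s
  have h1 : (⋂ i ∈ s, ev i) = {B | ∀ y ∈ s.biUnion (fun i => Fw (str i)), B y = true} := by
    ext B
    simp only [ev_eq, Set.mem_iInter, Set.mem_ofPred_eq, Finset.mem_biUnion]
    constructor
    · rintro h y ⟨i, hi, hy⟩
      exact h i hi y hy
    · intro h i hi y hy
      exact h y ⟨i, hi, hy⟩
  rw [h1, cyl, Finset.card_biUnion fun i _ j _ hij => disj fun h => hij (str_injective h),
    ← Finset.prod_pow_eq_pow_sum]
  exact Finset.prod_congr rfl fun i _ => by rw [ran_ev, card_Fw]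

theorem sum_lists (g : ℕ → ℝ≥0∞) : ∑' w : List Bool, g w.length = ∑' n, 2 ^ n * g n := by
  have e1 : ∑' w : List Bool, g w.length =
      ∑' p : (Σ n, {w : List Bool // w.length = n}), g p.1 := by
    rw [← (Equiv.sigmaFiberEquiv (List.length : List Bool → ℕ)).tsum_eq]
    refine tsum_congr fun p => ?_
    obtain ⟨n, w, hw⟩ := p
    exact congrArg g hw
  rw [e1, ENNReal.tsum_sigma (fun n (_ : {w : List Bool // w.length = n}) => g n)]
  refine tsum_congr fun n => ?_
  have : Fintype {w : List Bool // w.length = n} := inferInstanceAs (Fintype (List.Vector Bool n))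
  rw [tsum_fintype, Finset.sum_const, Finset.card_univ, nsmul_eq_mul]
  have h2 : Fintype.card {w : List Bool // w.length = n} = 2 ^ n := by
    have h3 := card_vector (α := Bool) n
    rw [Fintype.card_bool] at h3
    rw [← h3]
    exact Fintype.card_congr (Equiv.refl _)
  rw [h2]
  push_cast
  rfl

theorem sum_ev : ∑' i, ranO (ev i) = ∞ := by
  have e : ∑' i, ranO (ev i) = ∑' w : List Bool, (2⁻¹ : ℝ≥0∞) ^ hb w.length := by
    let E : ℕ ≃ List Bool := ⟨str, idx, idx_str, str_idx⟩
    rw [← E.tsum_eq]
    exact tsum_congr fun i => ran_ev i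
  rw [e, sum_lists fun n => (2⁻¹ : ℝ≥0∞) ^ hb n]
  have h1 : ∀ n : ℕ, ENNReal.ofReal (1 / ((n : ℝ) + 1)) ≤ 2 ^ n * (2⁻¹ : ℝ≥0∞) ^ hb n := by
    intro n
    have h2 : (2 : ℝ≥0∞) ^ n * (2⁻¹ : ℝ≥0∞) ^ hb n = (2⁻¹ : ℝ≥0∞) ^ Nat.log 2 (n + 1) := by
      rw [hb, pow_add, ← mul_assoc, ← mul_pow, ENNReal.mul_inv_cancel two_ne_zero ENNReal.ofNat_ne_top,
        one_pow, one_mul]
    rw [h2, ← ENNReal.inv_pow, one_div, ENNReal.ofReal_inv_of_pos (by positivity)]
    rw [ENNReal.inv_le_inv]
    have h3 : 2 ^ Nat.log 2 (n + 1) ≤ n + 1 := Nat.pow_log_le_self 2 (by omega)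
    have h4 : ENNReal.ofReal ((n : ℝ) + 1) = ((n + 1 : ℕ) : ℝ≥0∞) := by
      rw [← ENNReal.ofReal_natCast]
      push_cast
      rfl
    rw [h4]
    exact_mod_cast h3
  refine top_le_iff.1 (le_trans (top_le_iff.2 ?_) (ENNReal.tsum_le_tsum h1))
  by_contra hne
  have h2 := ENNReal.summable_toReal hne
  have h3 : Summable fun n : ℕ => 1 / ((n : ℝ) + 1) := by
    refine h2.congr fun n => ?_
    rw [ENNReal.toReal_ofReal (by positivity)]
  have h4 : Summable fun n : ℕ => 1 / ((n + 1 : ℕ) : ℝ) := by
    refine h3.congr fun n => ?_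
    push_cast
    rfl
  exact Real.not_summable_one_div_natCast ((summable_nat_add_iff 1).1 h4)

theorem tends : Tendsto (fun i => (str i).length) atTop atTop := by
  have h1 : Tendsto str atTop cofinite := by
    rw [← Nat.cofinite_eq_atTop]
    exact str_injective.tendsto_cofinite
  have h2 : Tendsto (List.length : List Bool → ℕ) cofinite atTop := by
    rw [tendsto_atTop]
    intro N
    rw [eventually_cofinite]
    refine (List.finite_length_lt Bool N).subset ?_
    intro l hl
    exact not_le.1 hl
  exact h2.comp h1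

theorem p_hit2 : P_hit2 := by
  have h1 : ranO (limsup ev atTop) = 1 := measure_limsup_eq_one ev_meas indep sum_ev
  have h2 : MeasurableSet (limsup ev atTop) := MeasurableSet.measurableSet_limsup ev_meas
  have h3 : limsup ev atTop ∈ ae ranO := (mem_ae_iff_prob_eq_one h2).2 h1
  filter_upwards [h3] with B hB
  rw [mem_limsup_iff_frequently_mem] at hB
  refine tends.frequently (p := fun n => ∃ w : List Bool, w.length = n ∧ Hit B w) ?_
  exact hB.mono fun i hi => ⟨str i, rfl, hi⟩

end Pool.Agent.W2helper93.PB
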